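import Pool.Agent.Lib.MP_28303a_al.NK.Iface2
import Mathlib.GroupTheory.SemidirectProduct

/-! # EMB (helper12): a countable group in a two-generated HNN extension -/

set_option autoImplicit false

namespace Pool.Agent.NegK.H12

/-- The shift of `FreeGroup ℤ`. -/
def shiftAut : MulAut (FreeGroup ℤ) := FreeGroup.freeGroupCongr (Equiv.addRight 1)

theorem shiftAut_of (k : ℤ) : shiftAut (FreeGroup.of k) = FreeGroup.of (k + 1) := by
  simp [shiftAut, FreeGroup.freeGroupCongr]

theorem shiftAut_pow_of (i : ℕ) (k : ℤ) :
    (shiftAut ^ i) (FreeGroup.of k) = FreeGroup.of (k + i) := by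
  induction i with
  | zero => simp
  | succ i ih =>
    rw [pow_succ', MulAut.mul_apply, ih, shiftAut_of]
    congr 1
    push_cast
    ring

/-- The action of `ℤ` on `FreeGroup ℤ`. -/
def act : Multiplicative ℤ →* MulAut (FreeGroup ℤ) := zpowersHom _ shiftAut

/-- The test homomorphism. -/
def test : FreeGroup Bool →* FreeGroup ℤ ⋊[act] Multiplicative ℤ :=
  FreeGroup.lift fun b => if b then SemidirectProduct.inr (Multiplicative.ofAdd 1)
    else SemidirectProduct.inl (FreeGroup.of 0)

/-- `x^i y x^{-i}`. -/
def cj (x y : FreeGroup Bool) (i : ℕ) : FreeGroup Bool := x ^ i * y * (x ^ i)⁻¹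

theorem test_cj (i : ℕ) : test (cj (FreeGroup.of true) (FreeGroup.of false) i) =
    SemidirectProduct.inl (FreeGroup.of (i : ℤ)) := by
  have h := SemidirectProduct.inl_aut (φ := act) (Multiplicative.ofAdd (i : ℤ))
    (FreeGroup.of (0 : ℤ))
  have e1 : act (Multiplicative.ofAdd (i : ℤ)) (FreeGroup.of (0 : ℤ)) =
      FreeGroup.of (i : ℤ) := by
    have : act (Multiplicative.ofAdd (i : ℤ)) = shiftAut ^ i := by
      simp [act]
    rw [this, shiftAut_pow_of, zero_add]
  rw [e1] at h
  rw [h]
  have e2 : Multiplicative.ofAdd (i : ℤ) = (Multiplicative.ofAdd (1 : ℤ)) ^ i := by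
    rw [← ofAdd_nsmul]; simp
  rw [e2]
  simp [test, cj]

theorem inj_cj : Function.Injective
    (FreeGroup.lift (cj (FreeGroup.of true) (FreeGroup.of false))) := by
  have h : Function.Injective (test.comp
      (FreeGroup.lift (cj (FreeGroup.of true) (FreeGroup.of false)))) := by
    have e : test.comp (FreeGroup.lift (cj (FreeGroup.of true) (FreeGroup.of false))) =
        (SemidirectProduct.inl (φ := act)).comp (FreeGroup.map (fun i : ℕ => (i : ℤ))) := by
      ext i
      · simp [test_cj]
      · simp [test_cj]
    rw [e]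
    exact SemidirectProduct.inl_injective.comp (FreeGroup.map_injective Nat.cast_injective)
  exact Function.Injective.of_comp h

theorem inj_cj' : Function.Injective
    (FreeGroup.lift (cj (FreeGroup.of false) (FreeGroup.of true))) := by
  have h : Function.Injective ((FreeGroup.map not).comp
      (FreeGroup.lift (cj (FreeGroup.of false) (FreeGroup.of true)))) := by
    have e : (FreeGroup.map not).comp
        (FreeGroup.lift (cj (FreeGroup.of false) (FreeGroup.of true))) =
        FreeGroup.lift (cj (FreeGroup.of true) (FreeGroup.of false)) := by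
      ext i
      simp [cj]
    rw [e]
    exact inj_cj
  exact Function.Injective.of_comp h

theorem emb : EmbStatement := by
  intro U _ _
  obtain ⟨f, hf⟩ := exists_surjective_nat U
  let g : ℕ → U := fun n => match n with
    | 0 => 1
    | n + 1 => f n
  have hg : Function.Surjective g := fun u => by
    obtain ⟨n, hn⟩ := hf u
    exact ⟨n + 1, hn⟩
  set x : FreeGroup Bool := FreeGroup.of true with hx
  set y : FreeGroup Bool := FreeGroup.of false with hy
  let α : FreeGroup ℕ →* U × FreeGroup Bool := FreeGroup.lift fun i => (1, cj x y i)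
  let β : FreeGroup ℕ →* U × FreeGroup Bool := FreeGroup.lift fun i => (g i, cj y x i)
  have hα : Function.Injective α := by
    have e : (MonoidHom.snd U (FreeGroup Bool)).comp α = FreeGroup.lift (cj x y) := by
      ext i
      simp [α]
    have h := inj_cj
    rw [← hx, ← hy, ← e, MonoidHom.coe_comp] at h
    exact Function.Injective.of_comp h
  have hβ : Function.Injective β := by
    have e : (MonoidHom.snd U (FreeGroup Bool)).comp β = FreeGroup.lift (cj y x) := by
      ext i
      simp [β]
    have h := inj_cj'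
    rw [← hx, ← hy, ← e, MonoidHom.coe_comp] at h
    exact Function.Injective.of_comp h
  let φ : α.range ≃* β.range := (MonoidHom.ofInjective hα).symm.trans (MonoidHom.ofInjective hβ)
  have hφ : ∀ w : FreeGroup ℕ, (φ ⟨α w, w, rfl⟩ : U × FreeGroup Bool) = β w := by
    intro w
    have e : (MonoidHom.ofInjective hα).symm ⟨α w, w, rfl⟩ = w :=
      (MonoidHom.ofInjective hα).symm_apply_eq.2 rfl
    simp only [φ, MulEquiv.trans_apply, e]
    rfl
  refine ⟨α.range, β.range, φ, ⟨(MonoidHom.ofInjective hα).symm⟩, HNNExtension.t,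
    HNNExtension.of (1, y), ?_⟩
  set C := Subgroup.closure {(HNNExtension.t : HNNExtension _ _ _ φ),
    HNNExtension.of (1, y)} with hC
  have ht : (HNNExtension.t : HNNExtension _ _ _ φ) ∈ C := Subgroup.subset_closure (by simp)
  have hy1 : (HNNExtension.of (1, y) : HNNExtension _ _ _ φ) ∈ C :=
    Subgroup.subset_closure (by simp)
  have hconj : ∀ w : FreeGroup ℕ, (HNNExtension.of (α w) : HNNExtension _ _ _ φ) ∈ C →
      (HNNExtension.of (β w) : HNNExtension _ _ _ φ) ∈ C := by
    intro w hw
    have h := HNNExtension.equiv_eq_conj (φ := φ) ⟨α w, w, rfl⟩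
    rw [hφ w] at h
    rw [h]
    exact C.mul_mem (C.mul_mem ht hw) (C.inv_mem ht)
  have hx1 : (HNNExtension.of (1, x) : HNNExtension _ _ _ φ) ∈ C := by
    have h := hconj (FreeGroup.of 0) (by simpa [α, cj] using hy1)
    simpa [β, cj, g] using h
  have hF : ∀ w : FreeGroup Bool, (HNNExtension.of (1, w) : HNNExtension _ _ _ φ) ∈ C := by
    intro w
    let ι : FreeGroup Bool →* HNNExtension _ _ _ φ :=
      (HNNExtension.of).comp (MonoidHom.inr U (FreeGroup Bool))
    have h : ι w ∈ C := by
      have h2 : (⊤ : Subgroup (FreeGroup Bool)) ≤ C.comap ι := by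
        rw [← FreeGroup.closure_range_of, Subgroup.closure_le]
        rintro _ ⟨b, rfl⟩
        cases b
        · exact hy1
        · exact hx1
      exact h2 (Subgroup.mem_top w)
    exact h
  have hαC : ∀ i : ℕ, (HNNExtension.of (β (FreeGroup.of i)) : HNNExtension _ _ _ φ) ∈ C := by
    intro i
    apply hconj
    have : α (FreeGroup.of i) = (1, cj x y i) := by simp [α]
    rw [this]
    exact hF _
  have hU : ∀ u : U, (HNNExtension.of (u, 1) : HNNExtension _ _ _ φ) ∈ C := by
    intro u
    obtain ⟨i, rfl⟩ := hg u
    have e : ((g i, 1) : U × FreeGroup Bool) = β (FreeGroup.of i) * (1, (cj y x i)⁻¹) := by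
      simp [β]
    rw [e, map_mul]
    exact C.mul_mem (hαC i) (hF _)
  rw [eq_top_iff]
  rintro z -
  induction z using HNNExtension.induction_on with
  | of p =>
    obtain ⟨u, w⟩ := p
    have e : ((u, w) : U × FreeGroup Bool) = (u, 1) * (1, w) := by simp
    rw [e, map_mul]
    exact C.mul_mem (hU u) (hF w)
  | t => exact ht
  | mul a b ha hb => exact C.mul_mem ha hb
  | inv a ha => exact C.inv_mem ha

end Pool.Agent.NegK.H12
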