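import Pool.Agent.Lib.MP_28303a_al.NK.Iface2

/-! # HNNTF (helper12): HNN extensions of torsionfree groups are torsionfree -/

set_option autoImplicit false

namespace Pool.Agent.NegK.H12

open HNNExtension HNNExtension.NormalWord

variable {G : Type} [Group G] {A B : Subgroup G} (φ : A ≃* B)

/-- The chain condition. -/
def Rel (A B : Subgroup G) (a b : ℤˣ × G) : Prop := a.2 ∈ toSubgroup A B a.1 → a.1 = b.1

/-- The product of a list of letters. -/
def PP (l : List (ℤˣ × G)) : HNNExtension G A B φ :=
  (l.map (fun x => t ^ (x.1 : ℤ) * of x.2)).prod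

theorem PP_nil : PP φ ([] : List (ℤˣ × G)) = 1 := rfl

theorem PP_append (l l' : List (ℤˣ × G)) : PP φ (l ++ l') = PP φ l * PP φ l' := by
  simp [PP]

theorem PP_cons (a : ℤˣ × G) (l : List (ℤˣ × G)) :
    PP φ (a :: l) = t ^ (a.1 : ℤ) * of a.2 * PP φ l := by
  simp [PP]

theorem tu_mul (u : ℤˣ) (a : toSubgroup A B u) :
    (t : HNNExtension G A B φ) ^ (u : ℤ) * of (a : G) =
      of (toSubgroupEquiv φ u a : G) * t ^ (u : ℤ) := by
  rcases Int.units_eq_one_or u with rfl | rfl
  · change (t : HNNExtension G A B φ) ^ (((1 : ℤˣ) : ℤ)) * of (a : G) =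
      of ((φ a : B) : G) * t ^ (((1 : ℤˣ) : ℤ))
    rw [Units.val_one, zpow_one]
    exact t_mul_of a
  · change (t : HNNExtension G A B φ) ^ (((-1 : ℤˣ) : ℤ)) * of (a : G) =
      of ((φ.symm a : A) : G) * t ^ (((-1 : ℤˣ) : ℤ))
    rw [Units.val_neg, Units.val_one, zpow_neg, zpow_one]
    exact inv_t_mul_of a

/-- A list repeated `k` times. -/
def rep (l : List (ℤˣ × G)) : ℕ → List (ℤˣ × G)
  | 0 => []
  | k + 1 => l ++ rep l k

theorem PP_rep (l : List (ℤˣ × G)) (k : ℕ) : PP φ (rep l k) = PP φ l ^ k := by
  induction k with
  | zero => simp [rep, PP_nil]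
  | succ k ih => rw [rep, PP_append, ih, pow_succ']

omit [Group G] in
theorem rep_head (a : ℤˣ × G) (l : List (ℤˣ × G)) (k : ℕ) :
    ∀ y ∈ (rep (a :: l) k).head?, y = a := by
  cases k with
  | zero => simp [rep]
  | succ k => simp [rep]

theorem key (h0 : TorsionFree G) : ∀ (k : ℕ) (g : G) (l : List (ℤˣ × G)), l.length ≤ k →
    l.IsChain (Rel A B) → ∀ m : ℕ, 0 < m → (of g * PP φ l) ^ m = 1 → of g * PP φ l = 1 := by
  intro k
  induction k with
  | zero =>
    intro g l hl hc m hm hx
    have : l = [] := List.eq_nil_of_length_eq_zero (by omega)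
    subst this
    rw [PP_nil, mul_one] at hx ⊢
    rw [← map_pow, ← map_one (of (φ := φ))] at hx
    have := of_injective φ hx
    rw [h0 g m hm this, map_one]
  | succ k ih =>
    intro g l hl hc m hm hx
    rcases List.eq_nil_or_concat l with rfl | ⟨l0, ⟨v, h⟩, rfl⟩
    · exact ih g [] (by simp) List.isChain_nil m hm hx
    -- conjugate by `g`
    rw [List.concat_eq_append] at hl hc hx ⊢
    rw [List.isChain_append] at hc
    obtain ⟨hc0, -, hc1⟩ := hc
    have hchain : (l0 ++ [(v, h * g)]).IsChain (Rel A B) := by
      rw [List.isChain_append]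
      refine ⟨hc0, List.isChain_singleton _, ?_⟩
      intro x hx y hy
      simp only [List.head?_cons, Option.mem_def, Option.some.injEq] at hy
      subst hy
      exact hc1 x hx (v, h) (by simp)
    have hconj : of g * PP φ (l0 ++ [(v, h)]) =
        of g * PP φ (l0 ++ [(v, h * g)]) * (of g)⁻¹ := by
      rw [PP_append, PP_append, PP_cons, PP_cons, PP_nil, mul_one, mul_one]
      simp only [map_mul, mul_assoc, mul_inv_cancel, mul_one]
    rw [hconj] at hx ⊢
    rw [conj_pow] at hx
    have hx' : PP φ (l0 ++ [(v, h * g)]) ^ m = 1 := by
      have := congrArg (fun z => (of g)⁻¹ * z * of g) hx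
      simpa [mul_assoc] using this
    suffices hs : PP φ (l0 ++ [(v, h * g)]) = 1 by rw [hs]; simp
    clear hx hconj hc1
    set h' := h * g with hh'
    cases l0 with
    | nil =>
      exfalso
      -- cyclically reduced
      have hcr : ∀ n, (rep [(v, h')] n).IsChain (Rel A B) := by
        intro n
        induction n with
        | zero => exact List.isChain_nil
        | succ n ihn =>
          rw [rep, List.isChain_append]
          refine ⟨List.isChain_singleton _, ihn, ?_⟩
          intro x hx y hy
          have hy' := rep_head _ _ _ y hy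
          simp only [List.getLast?_singleton, Option.mem_def, Option.some.injEq] at hx
          subst hx
          subst hy'
          exact fun _ => rfl
      have e := HNNExtension.ReducedWord.map_fst_eq_and_of_prod_eq φ (w₁ := ⟨1, rep [(v, h')] m, hcr m⟩)
        (w₂ := ReducedWord.empty G A B) (by
          have : PP φ (rep [(v, h')] m) = 1 := by
            rw [PP_rep]; exact hx'
          simpa [ReducedWord.prod, PP] using this)
      have e1 := e.1
      obtain ⟨m', rfl⟩ : ∃ m', m = m' + 1 := ⟨m - 1, by omega⟩
      simp [rep, ReducedWord.empty] at e1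
    | cons a mid =>
      obtain ⟨u, g1⟩ := a
      by_cases hcase : h' ∈ toSubgroup A B v → v = u
      · exfalso
        have hcr : ∀ n, (rep ((u, g1) :: mid ++ [(v, h')]) n).IsChain (Rel A B) := by
          intro n
          induction n with
          | zero => exact List.isChain_nil
          | succ n ihn =>
            rw [rep, List.isChain_append]
            refine ⟨hchain, ihn, ?_⟩
            intro x hx y hy
            have hy' := rep_head (u, g1) (mid ++ [(v, h')]) n y hy
            rw [List.getLast?_append] at hx
            simp only [List.getLast?_singleton, Option.mem_def] at hx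
            have hx2 : x = (v, h') := by
              simpa using hx.symm
            subst hx2
            subst hy'
            exact hcase
        have e := HNNExtension.ReducedWord.map_fst_eq_and_of_prod_eq φ
          (w₁ := ⟨1, rep ((u, g1) :: mid ++ [(v, h')]) m, hcr m⟩)
          (w₂ := ReducedWord.empty G A B) (by
            have : PP φ (rep ((u, g1) :: mid ++ [(v, h')]) m) = 1 := by
              rw [PP_rep]; exact hx'
            simpa [ReducedWord.prod, PP] using this)
        have e1 := e.1
        obtain ⟨m', rfl⟩ : ∃ m', m = m' + 1 := ⟨m - 1, by omega⟩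
        simp [rep, ReducedWord.empty] at e1
      · have hmem : h' ∈ toSubgroup A B v := by
          by_contra hc
          exact hcase fun h => absurd h hc
        have hne : v ≠ u := fun h => hcase fun _ => h
        have hu : u = -v := by
          rcases Int.units_eq_one_or u with rfl | rfl <;>
            rcases Int.units_eq_one_or v with rfl | rfl <;> simp_all
        -- conjugate by the last letter
        set z : HNNExtension G A B φ := t ^ (v : ℤ) * of h' with hz
        have hzz : z * (t ^ (u : ℤ) * of g1) =
            of ((toSubgroupEquiv φ v ⟨h', hmem⟩ : G) * g1) := by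
          rw [hz]
          have h1 := tu_mul φ v ⟨h', hmem⟩
          simp only at h1
          rw [h1, hu]
          simp [map_mul, mul_assoc]
        have hy : z * PP φ ((u, g1) :: mid ++ [(v, h')]) * z⁻¹ =
            of ((toSubgroupEquiv φ v ⟨h', hmem⟩ : G) * g1) * PP φ mid := by
          rw [PP_append, PP_cons, PP_cons, PP_nil, mul_one, ← hzz]
          change z * (t ^ (u : ℤ) * of g1 * PP φ mid * z) * z⁻¹ =
            z * (t ^ (u : ℤ) * of g1) * PP φ mid
          simp only [mul_assoc, mul_inv_cancel, mul_one]
        have hlen : mid.length ≤ k := by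
          simp at hl
          omega
        have hmidchain : mid.IsChain (Rel A B) := by
          have := (List.isChain_cons.1 hc0).2
          exact this
        have hpow : (of ((toSubgroupEquiv φ v ⟨h', hmem⟩ : G) * g1) * PP φ mid) ^ m = 1 := by
          rw [← hy, conj_pow, hx']
          simp
        have h1 := ih _ mid hlen hmidchain m hm hpow
        rw [← hy] at h1
        have := congrArg (fun w => z⁻¹ * w * z) h1
        simpa [mul_assoc] using this

theorem hnntf : HnntfStatement := by
  intro G _ A B φ h0 x m hm hx
  rcases TransversalPair.nonempty G A B with ⟨d⟩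
  set w := NormalWord.equiv φ d x with hw
  have hx' : x = w.prod φ := by
    rw [hw]
    exact ((NormalWord.equiv φ d).symm_apply_apply x).symm
  have hform : x = of w.head * PP φ w.toList := hx'
  rw [hform] at hx ⊢
  exact key φ h0 w.toList.length w.head w.toList le_rfl w.chain m hm hx

end Pool.Agent.NegK.H12
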